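import Mathlib
import Pool.Agent.H17.Dens

set_option autoImplicit false

namespace Pool.Agent.Results.MP_1da4e9_nt.NotHomog

structure IsUpperDensity (H : Set ℤ) (μ : Set ℤ → ℝ) : Prop where
  univ : μ H = 1
  mono : ∀ X Y, X ⊆ Y → Y ⊆ H → μ X ≤ μ Y
  subadd : ∀ X ⊆ H, ∀ Y ⊆ H, μ (X ∪ Y) ≤ μ X + μ Y
  affine : ∀ X ⊆ H, ∀ h k : ℤ, 0 < h → 0 < k → μ ((fun x => k * x + h) '' X) = 1 / k * μ X
  le_one : ∀ X ⊆ H, μ X ≤ 1

open Pool.Agent.H17.Dens in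
theorem result (H : Set ℤ) (hH : H = Set.univ ∨ H = Set.Ici 0 ∨ H = Set.Ici 1) :
    ∃ μ : Set ℤ → ℝ, IsUpperDensity H μ ∧ ∃ X ⊆ H, ∃ k : ℤ, 0 < k ∧
      1 - μ (H \ (fun x => k * x) '' X) ≠ 1 / k * (1 - μ (H \ X)) := by
  have h1 : Set.Ici 1 ⊆ H := by
    rcases hH with rfl | rfl | rfl
    · simp
    · exact Set.Ici_subset_Ici.2 (by norm_num)
    · rfl
  have h2 : ∀ t : ℤ, 2 * t ∈ H → t ∈ H := by
    rcases hH with rfl | rfl | rfl
    · simp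
    all_goals simp only [Set.mem_Ici]; omega
  refine ⟨μ0, ⟨μ0_H h1, fun _ _ h _ => μ0_mono h, fun X _ Y _ => μ0_union X Y,
    fun X _ h k _ hk => μ0_aff X h hk, fun X _ => μ0_le X⟩, H \ Set.range y, Set.sdiff_subset, 2,
    two_pos, ?_⟩
  have a1 : 1 / 2 ≤ μ0 (Set.range y) := le_max_of_le_right (by rw [y_full])
  have a2 : H \ (fun x => 2 * x) '' (H \ Set.range y) ⊆
      (fun x => 2 * x + 0) '' Set.range y ∪ (fun x => 2 * x + 1) '' Set.univ := by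
    rintro x ⟨hx, hx'⟩
    rcases Int.even_or_odd' x with ⟨t, rfl | rfl⟩
    · left
      by_contra hc
      exact hx' ⟨t, ⟨h2 t hx, fun h => hc ⟨t, h, by simp⟩⟩, rfl⟩
    · exact Or.inr ⟨t, trivial, rfl⟩
  have a3 := (β_mono good2 a2).trans (β_union good2 _ _)
  rw [β_aff good2 _ _ two_pos, β_aff good2 _ _ two_pos] at a3
  have a4 := β_zero good2 y_small
  have a5 := β_le_one (B := B2) Set.univ
  have a6 : μ0 (H \ (fun x => 2 * x) '' (H \ Set.range y)) ≤ 1 / 2 :=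
    max_le (by push_cast at a3; linarith) (by
      linarith [β_le_one (B := Set.Nonempty) (H \ (fun x => 2 * x) '' (H \ Set.range y))])
  rw [Set.sdiff_sdiff_cancel_left (y_pos.trans h1)]
  push_cast
  linarith

end Pool.Agent.Results.MP_1da4e9_nt.NotHomog
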