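import Mathlib
import Pool.Agent.H17.Dens

set_option autoImplicit false

namespace Pool.Agent.Results.MP_1da4e9_nt.Translation

structure IsUpperQuasi (H : Set ℤ) (μ : Set ℤ → ℝ) : Prop where
  univ : μ H = 1
  subadd : ∀ X ⊆ H, ∀ Y ⊆ H, μ (X ∪ Y) ≤ μ X + μ Y
  affine : ∀ X ⊆ H, ∀ h k : ℤ, 0 < h → 0 < k → μ ((fun x => k * x + h) '' X) = 1 / k * μ X
  le_one : ∀ X ⊆ H, μ X ≤ 1

open Pool.Agent.H17.Dens in
theorem result (H : Set ℤ) (hH : H = Set.univ ∨ H = Set.Ici 0 ∨ H = Set.Ici 1) :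
    (∃ μ : Set ℤ → ℝ, IsUpperQuasi H μ ∧ ∃ X ⊆ H, ∃ h : ℤ, 0 ≤ h ∧
      1 - μ (H \ (fun x => x + h) '' X) ≠ 1 - μ (H \ X)) ↔ H ≠ Set.univ := by
  constructor
  · rintro ⟨μ, hμ, X, -, h, h0, hne⟩ rfl
    apply hne
    rcases h0.eq_or_lt with rfl | h0
    · simp
    have := hμ.affine (Set.univ \ X) (Set.subset_univ _) h 1 h0 one_pos
    simp only [one_mul, Int.cast_one, div_one] at this
    rw [← this, Set.image_sdiff (add_left_injective h), Set.image_univ,
      (add_right_surjective h).range_eq]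
  intro hne
  obtain ⟨m, hm, rfl⟩ : ∃ m ≤ 1, H = Set.Ici m := by
    rcases hH with rfl | rfl | rfl
    · exact absurd rfl hne
    · exact ⟨0, by norm_num, rfl⟩
    · exact ⟨1, le_rfl, rfl⟩
  have h1 : Set.Ici 1 ⊆ Set.Ici m := Set.Ici_subset_Ici.2 hm
  have nf : ∀ X : Set ℤ, m ∈ X → m + 1 ∈ X → m + 2 ∈ X → ¬ Free X := fun X a b c h => by
    have := h _ a _ b _ c (by ring)
    omega
  classical
  let μ : Set ℤ → ℝ := fun X => if Free X then β Set.Nonempty X else μ0 X
  have l0 : ∀ X, μ0 X ≤ μ X := fun X => by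
    simp only [μ]
    split_ifs
    · exact μ0_le_β X
    · rfl
  refine ⟨μ, ⟨?_, fun X _ Y _ => ?_, fun X _ h k _ hk => ?_, fun X _ => ?_⟩,
    Set.Ici m \ Set.range y, Set.sdiff_subset, 3, by norm_num, ?_⟩
  · simp only [μ]
    rw [if_neg (nf _ (by simp) (by simp) (by simp)), μ0_H h1]
  · by_cases hf : Free (X ∪ Y)
    · have a : Free X := fun a ha b hb c hc => hf a (Or.inl ha) b (Or.inl hb) c (Or.inl hc)
      have b : Free Y := fun a ha b hb c hc => hf a (Or.inr ha) b (Or.inr hb) c (Or.inr hc)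
      simp only [μ, if_pos hf, if_pos a, if_pos b]
      exact β_union good1 X Y
    · refine le_trans ?_ (add_le_add (l0 X) (l0 Y))
      simp only [μ, if_neg hf]
      exact μ0_union X Y
  · simp only [μ, free_aff X h hk]
    split_ifs
    · exact β_aff good1 X h hk
    · exact μ0_aff X h hk
  · simp only [μ]
    split_ifs
    · exact β_le_one X
    · exact μ0_le X
  · have k : ∀ x, m ≤ x → x < m + 3 →
        x ∈ Set.Ici m \ (fun x => x + 3) '' (Set.Ici m \ Set.range y) := by
      rintro x h1 h2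
      refine ⟨h1, ?_⟩
      rintro ⟨t, ⟨ht, -⟩, rfl⟩
      simp only [Set.mem_Ici] at ht h2
      omega
    have sm : ¬ B2 (Set.Ici m \ (fun x => x + 3) '' (Set.Ici m \ Set.range y)) := fun h => by
      have a : Set.Ici m \ (fun x => x + 3) '' (Set.Ici m \ Set.range y) ⊆
          (fun x => 1 * x + 3) '' Set.range y ∪ Set.Ico m (m + 3) := by
        rintro x ⟨hx, hx'⟩
        by_contra hc
        simp only [Set.mem_union, Set.mem_Ico, not_or, Set.mem_Ici] at hc hx
        exact hx' ⟨x - 3, ⟨by simp only [Set.mem_Ici]; omega, fun h => hc.1 ⟨_, h, by ring⟩⟩,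
          by ring⟩
      rcases good2.union _ _ (good2.mono _ _ a h) with h | h
      · exact y_small ((good2.aff _ _ _ one_pos).1 h)
      · exact h (summable_of_hasFiniteSupport
          ((Set.finite_Ico m (m + 3)).subset Set.support_indicator_subset))
    simp only [μ]
    rw [Set.sdiff_sdiff_cancel_left (y_pos.trans h1), if_pos y_free, y_full,
      if_neg (nf _ (k _ (by omega) (by omega)) (k _ (by omega) (by omega))
        (k _ (by omega) (by omega)))]
    refine ne_of_gt (sub_lt_sub_left (max_lt (by linarith [β_zero good2 sm]) ?_) _)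
    linarith [β_le_one (B := Set.Nonempty)
      (Set.Ici m \ (fun x => x + 3) '' (Set.Ici m \ Set.range y))]

end Pool.Agent.Results.MP_1da4e9_nt.Translation
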